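import Mathlib

/-!
Combinatorial tools for the disproof of the constant width polynomial Bogolyubov statement:
signed sums, shattering, counting of integer points, and an exponential moment bound.
-/

namespace Pool.Agent.H842R3.Bogo

open Finset

/-- The signed sum of `y` with the signs given by the set `U`. -/
noncomputable def pair {d : ℕ} (U : Finset (Fin d)) (y : Fin d → ℤ) : ℤ :=
  ∑ i, (if i ∈ U then y i else - y i)

lemma pair_add {d : ℕ} (U : Finset (Fin d)) (y z : Fin d → ℤ) :
    pair U (y + z) = pair U y + pair U z := by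
  unfold pair
  rw [← Finset.sum_add_distrib]
  refine Finset.sum_congr rfl fun i _ => ?_
  by_cases h : i ∈ U <;> simp [h] ; ring

lemma pair_neg {d : ℕ} (U : Finset (Fin d)) (y : Fin d → ℤ) :
    pair U (-y) = - pair U y := by
  unfold pair
  rw [← Finset.sum_neg_distrib]
  refine Finset.sum_congr rfl fun i _ => ?_
  by_cases h : i ∈ U <;> simp [h]

lemma pair_sub {d : ℕ} (U : Finset (Fin d)) (y z : Fin d → ℤ) :
    pair U (y - z) = pair U y - pair U z := by
  rw [sub_eq_add_neg, pair_add, pair_neg, sub_eq_add_neg]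

lemma card_small_sets (d : ℕ) :
    2 * (univ.filter fun I : Finset (Fin d) => 2 * I.card < d).card ≤ 2 ^ d := by
  have h1 : (univ.filter fun I : Finset (Fin d) => 2 * I.card < d).card
      ≤ (univ.filter fun I : Finset (Fin d) => d < 2 * I.card).card := by
    refine Finset.card_le_card_of_injOn (fun I => Iᶜ) ?_ ?_
    · intro I hI
      simp only [coe_filter, mem_univ, true_and, Set.mem_ofPred_eq] at hI ⊢
      rw [Finset.card_compl, Fintype.card_fin]
      omega
    · intro I _ J _ h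
      exact compl_injective h
  have h2 : Disjoint (univ.filter fun I : Finset (Fin d) => 2 * I.card < d)
      (univ.filter fun I : Finset (Fin d) => d < 2 * I.card) := by
    rw [Finset.disjoint_filter]
    intro I _ h
    omega
  have h3 := Finset.card_union_of_disjoint h2
  have h4 : ((univ.filter fun I : Finset (Fin d) => 2 * I.card < d) ∪
      (univ.filter fun I : Finset (Fin d) => d < 2 * I.card)).card ≤ 2 ^ d := by
    refine (Finset.card_le_univ _).trans ?_
    simp
  omega

lemma exists_shatters {d : ℕ} (𝒰 : Finset (Finset (Fin d))) (h : 2 ^ d < 2 * 𝒰.card) :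
    ∃ I : Finset (Fin d), d ≤ 2 * I.card ∧ 𝒰.Shatters I := by
  by_contra hcon
  push Not at hcon
  have h1 := Finset.card_le_card_shatterer 𝒰
  have h2 : 𝒰.shatterer ⊆ (univ.filter fun I : Finset (Fin d) => 2 * I.card < d) := by
    intro I hI
    rw [Finset.mem_shatterer] at hI
    simp only [mem_filter, mem_univ, true_and]
    by_contra h3
    exact hcon I (by omega) hI
  have h3 := Finset.card_le_card h2
  have h4 := card_small_sets d
  omega

lemma fiber_l1 {d : ℕ} {𝒰 : Finset (Finset (Fin d))} {I : Finset (Fin d)}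
    (hI : 𝒰.Shatters I) {S : Finset (Fin d → ℤ)} {W : ℤ}
    (hS : ∀ U ∈ 𝒰, ∀ z ∈ S, |pair U z| ≤ W)
    {z z' : Fin d → ℤ} (hz : z ∈ S) (hz' : z' ∈ S) (heq : ∀ i, i ∉ I → z i = z' i) :
    ∑ i ∈ I, |z i - z' i| ≤ 2 * W := by
  obtain ⟨U, hU, hIU⟩ := hI (t := I.filter fun i => z' i ≤ z i) (Finset.filter_subset _ _)
  have h1 : pair U (z - z') = ∑ i ∈ I, |z i - z' i| := by
    unfold pair
    rw [← Finset.sum_subset (Finset.subset_univ I)]
    · refine Finset.sum_congr rfl fun i hi => ?_
      have h2 : i ∈ U ↔ z' i ≤ z i := by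
        have h3 : i ∈ I ∩ U ↔ i ∈ I.filter fun i => z' i ≤ z i := by rw [hIU]
        simpa [hi] using h3
      by_cases hiU : i ∈ U
      · have h4 := h2.1 hiU
        simp only [hiU, if_true, Pi.sub_apply]
        rw [abs_of_nonneg (by linarith)]
      · have h4 : ¬ (z' i ≤ z i) := fun h => hiU (h2.2 h)
        simp only [hiU, if_false, Pi.sub_apply]
        rw [abs_of_neg (by linarith [not_le.1 h4])]
    · intro i _ hi
      have h5 := heq i hi
      simp [h5]
  rw [← h1, pair_sub]
  have h2 := hS U hU z hz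
  have h3 := hS U hU z' hz'
  rw [abs_le] at h2 h3
  linarith [h2.2, h3.1]

/-- The box of all integer vectors with entries in `[-L, L]`. -/
noncomputable def box (d L : ℕ) : Finset (Fin d → ℤ) :=
  Fintype.piFinset fun _ => Finset.Icc (-(L : ℤ)) (L : ℤ)

lemma mem_box {d L : ℕ} {z : Fin d → ℤ} : z ∈ box d L ↔ ∀ i, |z i| ≤ L := by
  simp [box, Fintype.mem_piFinset, abs_le]

lemma card_box (d L : ℕ) : (box d L).card = (2 * L + 1) ^ d := by
  simp only [box, Fintype.card_piFinset, Int.card_Icc, Finset.prod_const, Finset.card_univ,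
    Fintype.card_fin]
  congr 1
  omega

lemma sum_pow_natAbs_le (L : ℕ) {x : ℝ} (hx0 : 0 ≤ x) (hx1 : x < 1) :
    ∑ a ∈ Finset.Icc (-(L : ℤ)) (L : ℤ), x ^ a.natAbs ≤ 2 / (1 - x) := by
  have hsub : Finset.Icc (-(L : ℤ)) (L : ℤ) ⊆
      ((Finset.range (L + 1)).image fun n : ℕ => (n : ℤ)) ∪
        ((Finset.range (L + 1)).image fun n : ℕ => -(n : ℤ)) := by
    intro a ha
    rw [Finset.mem_Icc] at ha
    rw [Finset.mem_union, Finset.mem_image, Finset.mem_image]
    rcases le_total 0 a with h | h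
    · left
      refine ⟨a.natAbs, ?_, ?_⟩
      · rw [Finset.mem_range]; omega
      · omega
    · right
      refine ⟨a.natAbs, ?_, ?_⟩
      · rw [Finset.mem_range]; omega
      · omega
  have hg : (∑ i ∈ Finset.range (L + 1), x ^ i) ≤ 1 / (1 - x) := by
    rw [le_div_iff₀ (by linarith)]
    rw [geom_sum_mul_neg]
    have := pow_nonneg hx0 (L + 1)
    linarith
  calc ∑ a ∈ Finset.Icc (-(L : ℤ)) (L : ℤ), x ^ a.natAbs
      ≤ ∑ a ∈ ((Finset.range (L + 1)).image fun n : ℕ => (n : ℤ)) ∪
        ((Finset.range (L + 1)).image fun n : ℕ => -(n : ℤ)), x ^ a.natAbs :=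
        Finset.sum_le_sum_of_subset_of_nonneg hsub fun a _ _ => pow_nonneg hx0 _
    _ ≤ ∑ a ∈ ((Finset.range (L + 1)).image fun n : ℕ => (n : ℤ)), x ^ a.natAbs +
        ∑ a ∈ ((Finset.range (L + 1)).image fun n : ℕ => -(n : ℤ)), x ^ a.natAbs := by
        rw [← Finset.sum_union_inter]
        have : 0 ≤ ∑ a ∈ ((Finset.range (L + 1)).image fun n : ℕ => (n : ℤ)) ∩
          ((Finset.range (L + 1)).image fun n : ℕ => -(n : ℤ)), x ^ a.natAbs :=
          Finset.sum_nonneg fun a _ => pow_nonneg hx0 _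
        linarith
    _ = (∑ i ∈ Finset.range (L + 1), x ^ i) + ∑ i ∈ Finset.range (L + 1), x ^ i := by
        rw [Finset.sum_image (fun a _ b _ h => by simpa using h),
          Finset.sum_image (fun a _ b _ h => by simpa using h)]
        simp
    _ ≤ 1 / (1 - x) + 1 / (1 - x) := add_le_add hg hg
    _ = 2 / (1 - x) := by ring

/-- Counting lemma: a set of integer vectors in a box whose fibers over the coordinates outside
`I` have small `ℓ¹`-diameter is small. -/
lemma card_mul_pow_le {d L : ℕ} {I : Finset (Fin d)} {S : Finset (Fin d → ℤ)} {W : ℕ}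
    (hSb : S ⊆ box d L)
    (hS : ∀ z ∈ S, ∀ z' ∈ S, (∀ i, i ∉ I → z i = z' i) → ∑ i ∈ I, |z i - z' i| ≤ (W : ℤ))
    {x : ℝ} (hx0 : 0 < x) (hx1 : x < 1) :
    (S.card : ℝ) * x ^ W ≤ (2 / (1 - x)) ^ I.card * (2 * L + 1 : ℝ) ^ (d - I.card) := by
  classical
  -- representatives
  have hrep : ∀ v : Fin d → ℤ, ∃ z : Fin d → ℤ,
      (∃ z' ∈ S, ∀ i, i ∉ I → z' i = v i) → (z ∈ S ∧ ∀ i, i ∉ I → z i = v i) := by
    intro v
    by_cases h : ∃ z' ∈ S, ∀ i, i ∉ I → z' i = v i
    · obtain ⟨z', hz', hv⟩ := h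
      exact ⟨z', fun _ => ⟨hz', hv⟩⟩
    · exact ⟨0, fun h' => absurd h' h⟩
  choose rep hrep using hrep
  let mask : (Fin d → ℤ) → (Fin d → ℤ) := fun z i => if i ∈ I then 0 else z i
  have hmask : ∀ z : Fin d → ℤ, ∀ i, i ∉ I → mask z i = z i := by
    intro z i hi
    simp [mask, hi]
  have hr : ∀ z ∈ S, rep (mask z) ∈ S ∧ ∀ i, i ∉ I → rep (mask z) i = z i := by
    intro z hz
    have h1 := hrep (mask z) ⟨z, hz, fun i hi => (hmask z i hi).symm⟩
    refine ⟨h1.1, fun i hi => ?_⟩
    rw [h1.2 i hi, hmask z i hi]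
  let g : (Fin d → ℤ) → (Fin d → ℤ) := fun z i => if i ∈ I then z i - rep (mask z) i else z i
  have hginj : Set.InjOn g (S : Set (Fin d → ℤ)) := by
    intro z hz z' hz' h
    have h1 : mask z = mask z' := by
      funext i
      by_cases hi : i ∈ I
      · simp [mask, hi]
      · have := congrFun h i
        simpa [g, mask, hi] using this
    funext i
    have h2 := congrFun h i
    by_cases hi : i ∈ I
    · simp only [g, hi, if_true, h1] at h2
      linarith
    · simpa [g, hi] using h2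
  let t : Fin d → Finset ℤ := fun i =>
    if i ∈ I then Finset.Icc (-((2 * L : ℕ) : ℤ)) ((2 * L : ℕ) : ℤ)
    else Finset.Icc (-(L : ℤ)) (L : ℤ)
  let f : Fin d → ℤ → ℝ := fun i a => if i ∈ I then x ^ a.natAbs else 1
  have hf0 : ∀ i a, 0 ≤ f i a := by
    intro i a
    by_cases hi : i ∈ I
    · simp only [f, hi, if_true]; positivity
    · simp [f, hi]
  have hgmem : ∀ z ∈ S, g z ∈ Fintype.piFinset t := by
    intro z hz
    rw [Fintype.mem_piFinset]
    intro i
    have h1 := mem_box.1 (hSb hz) i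
    have h2 := mem_box.1 (hSb (hr z hz).1) i
    rw [abs_le] at h1 h2
    by_cases hi : i ∈ I
    · simp only [g, t, hi, if_true, Finset.mem_Icc]
      push_cast
      constructor <;> linarith
    · simp only [g, t, hi, if_false, Finset.mem_Icc]
      exact h1
  have hgprod : ∀ z ∈ S, x ^ W ≤ ∏ i, f i (g z i) := by
    intro z hz
    have h1 : ∏ i, f i (g z i) = ∏ i ∈ I, x ^ (z i - rep (mask z) i).natAbs := by
      rw [← Finset.prod_subset (Finset.subset_univ I)]
      · refine Finset.prod_congr rfl fun i hi => ?_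
        simp [f, g, hi]
      · intro i _ hi
        simp [f, hi]
    rw [h1, Finset.prod_pow_eq_pow_sum]
    refine pow_le_pow_of_le_one hx0.le hx1.le ?_
    have h2 := hS z hz (rep (mask z)) (hr z hz).1 (fun i hi => ((hr z hz).2 i hi).symm)
    have h3 : ((∑ i ∈ I, (z i - rep (mask z) i).natAbs : ℕ) : ℤ)
        = ∑ i ∈ I, |z i - rep (mask z) i| := by
      push_cast
      rfl
    rw [← h3] at h2
    exact_mod_cast h2
  calc (S.card : ℝ) * x ^ W = ∑ z ∈ S, x ^ W := by simp
    _ ≤ ∑ z ∈ S, ∏ i, f i (g z i) := Finset.sum_le_sum hgprod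
    _ = ∑ p ∈ S.image g, ∏ i, f i (p i) := by
        rw [Finset.sum_image hginj]
    _ ≤ ∑ p ∈ Fintype.piFinset t, ∏ i, f i (p i) := by
        refine Finset.sum_le_sum_of_subset_of_nonneg ?_ fun p _ _ =>
          Finset.prod_nonneg fun i _ => hf0 i _
        intro p hp
        rw [Finset.mem_image] at hp
        obtain ⟨z, hz, rfl⟩ := hp
        exact hgmem z hz
    _ = ∏ i, ∑ a ∈ t i, f i a := (Finset.prod_univ_sum t f).symm
    _ ≤ ∏ i, (if i ∈ I then 2 / (1 - x) else (2 * L + 1 : ℝ)) := by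
        refine Finset.prod_le_prod (fun i _ => Finset.sum_nonneg fun a _ => hf0 i a) ?_
        intro i _
        by_cases hi : i ∈ I
        · simp only [t, f, hi, if_true]
          exact sum_pow_natAbs_le (2 * L) hx0.le hx1
        · simp only [t, f, hi, if_false, Finset.sum_const, Int.card_Icc, nsmul_eq_mul, mul_one]
          have : ((L : ℤ) + 1 - -(L : ℤ)).toNat = 2 * L + 1 := by omega
          rw [this]
          push_cast
          exact le_refl _
    _ = (2 / (1 - x)) ^ I.card * (2 * L + 1 : ℝ) ^ (d - I.card) := by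
        rw [Finset.prod_ite, Finset.prod_const, Finset.prod_const]
        congr 2
        · congr 1
          ext i; simp
        · have : (univ.filter fun i => i ∉ I) = Iᶜ := by ext i; simp
          rw [this, Finset.card_compl, Fintype.card_fin]

/-- Exponential moment of one coordinate. -/
lemma sum_exp_le (H : ℕ) (l : ℝ) :
    ∑ a ∈ Finset.Icc (-(H : ℤ)) (H : ℤ), Real.exp (l * a)
      ≤ (2 * H + 1) * Real.exp (l ^ 2 * H ^ 2 / 2) := by
  have hrefl : ∑ a ∈ Finset.Icc (-(H : ℤ)) (H : ℤ), Real.exp (l * a)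
      = ∑ a ∈ Finset.Icc (-(H : ℤ)) (H : ℤ), Real.exp (-(l * a)) := by
    refine Finset.sum_nbij' (fun a => -a) (fun a => -a) ?_ ?_ ?_ ?_ ?_
    · intro a ha
      rw [Finset.mem_Icc] at ha ⊢
      constructor <;> linarith [ha.1, ha.2]
    · intro a ha
      rw [Finset.mem_Icc] at ha ⊢
      constructor <;> linarith [ha.1, ha.2]
    · intro a _; simp
    · intro a _; simp
    · intro a _
      push_cast
      congr 1
      ring
  have h2 : 2 * ∑ a ∈ Finset.Icc (-(H : ℤ)) (H : ℤ), Real.exp (l * a)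
      = ∑ a ∈ Finset.Icc (-(H : ℤ)) (H : ℤ), 2 * Real.cosh (l * a) := by
    rw [two_mul]
    nth_rewrite 2 [hrefl]
    rw [← Finset.sum_add_distrib]
    refine Finset.sum_congr rfl fun a _ => ?_
    rw [Real.cosh_eq]
    ring
  have h3 : ∑ a ∈ Finset.Icc (-(H : ℤ)) (H : ℤ), 2 * Real.cosh (l * a)
      ≤ ∑ a ∈ Finset.Icc (-(H : ℤ)) (H : ℤ), 2 * Real.exp (l ^ 2 * H ^ 2 / 2) := by
    refine Finset.sum_le_sum fun a ha => ?_
    have h4 := Real.cosh_le_exp_half_sq (l * a)
    have h5 : (l * a) ^ 2 / 2 ≤ l ^ 2 * H ^ 2 / 2 := by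
      rw [Finset.mem_Icc] at ha
      have h6 : |(a : ℝ)| ≤ H := by
        rw [abs_le]
        constructor
        · have := ha.1
          have : ((-(H : ℤ) : ℤ) : ℝ) ≤ (a : ℝ) := by exact_mod_cast this
          simpa using this
        · exact_mod_cast ha.2
      have h7 : (a : ℝ) ^ 2 ≤ (H : ℝ) ^ 2 := by
        rw [← sq_abs]
        exact pow_le_pow_left₀ (abs_nonneg _) h6 2
      have h8 : (l * a) ^ 2 = l ^ 2 * a ^ 2 := by ring
      rw [h8]
      have := mul_le_mul_of_nonneg_left h7 (sq_nonneg l)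
      linarith
    have h9 := Real.exp_le_exp.2 h5
    linarith
  rw [Finset.sum_const, nsmul_eq_mul, Int.card_Icc] at h3
  have h4 : (((H : ℤ) + 1 - -(H : ℤ)).toNat : ℝ) = 2 * H + 1 := by
    have : ((H : ℤ) + 1 - -(H : ℤ)).toNat = 2 * H + 1 := by omega
    rw [this]; push_cast; ring
  rw [h4] at h3
  linarith

lemma sum_exp_pair_le {d : ℕ} (H : ℕ) (U : Finset (Fin d)) (l : ℝ) :
    ∑ y ∈ box d H, Real.exp (l * (pair U y : ℝ))
      ≤ ((2 * H + 1) * Real.exp (l ^ 2 * H ^ 2 / 2)) ^ d := by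
  have h1 : ∀ y : Fin d → ℤ, Real.exp (l * (pair U y : ℝ))
      = ∏ i, Real.exp (l * ((if i ∈ U then y i else - y i : ℤ) : ℝ)) := by
    intro y
    rw [← Real.exp_sum, ← Finset.mul_sum]
    congr 2
    unfold pair
    push_cast
    rfl
  calc ∑ y ∈ box d H, Real.exp (l * (pair U y : ℝ))
      = ∑ y ∈ box d H, ∏ i, Real.exp (l * ((if i ∈ U then y i else - y i : ℤ) : ℝ)) :=
        Finset.sum_congr rfl fun y _ => h1 y
    _ = ∏ i, ∑ a ∈ Finset.Icc (-(H : ℤ)) (H : ℤ),
          Real.exp (l * ((if i ∈ U then a else - a : ℤ) : ℝ)) := by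
        rw [box]
        exact (Finset.prod_univ_sum (fun _ => Finset.Icc (-(H : ℤ)) (H : ℤ))
          (fun i a => Real.exp (l * ((if i ∈ U then a else - a : ℤ) : ℝ)))).symm
    _ ≤ ∏ _i : Fin d, ((2 * H + 1) * Real.exp (l ^ 2 * H ^ 2 / 2)) := by
        refine Finset.prod_le_prod (fun i _ => Finset.sum_nonneg fun a _ =>
          (Real.exp_pos _).le) ?_
        intro i _
        by_cases hi : i ∈ U
        · simp only [hi, if_true]
          exact sum_exp_le H l
        · simp only [hi, if_false]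
          have := sum_exp_le H (-l)
          rw [neg_sq] at this
          refine le_trans (le_of_eq ?_) this
          refine Finset.sum_congr rfl fun a _ => ?_
          push_cast
          congr 1
          ring
    _ = ((2 * H + 1) * Real.exp (l ^ 2 * H ^ 2 / 2)) ^ d := by
        rw [Finset.prod_const, Finset.card_univ, Fintype.card_fin]

/-- Hoeffding type count. -/
lemma card_large_pair_le {d : ℕ} (H : ℕ) (U : Finset (Fin d)) (l T : ℝ) (hl : 0 ≤ l) :
    (((box d H).filter fun y => T < |(pair U y : ℝ)|).card : ℝ)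
      ≤ 2 * ((2 * H + 1) ^ d * Real.exp (d * (l ^ 2 * H ^ 2 / 2) - l * T)) := by
  have h1 : (((box d H).filter fun y => T < |(pair U y : ℝ)|).card : ℝ) * Real.exp (l * T)
      ≤ 2 * ((2 * H + 1) * Real.exp (l ^ 2 * H ^ 2 / 2)) ^ d := by
    calc (((box d H).filter fun y => T < |(pair U y : ℝ)|).card : ℝ) * Real.exp (l * T)
        = ∑ y ∈ (box d H).filter fun y => T < |(pair U y : ℝ)|, Real.exp (l * T) := by simp
      _ ≤ ∑ y ∈ (box d H).filter fun y => T < |(pair U y : ℝ)|,
            (Real.exp (l * (pair U y : ℝ)) + Real.exp (-l * (pair U y : ℝ))) := by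
          refine Finset.sum_le_sum fun y hy => ?_
          rw [Finset.mem_filter] at hy
          have h2 := hy.2
          rcases le_total 0 (pair U y : ℝ) with h | h
          · rw [abs_of_nonneg h] at h2
            have h3 : Real.exp (l * T) ≤ Real.exp (l * (pair U y : ℝ)) :=
              Real.exp_le_exp.2 (mul_le_mul_of_nonneg_left h2.le hl)
            have h4 := (Real.exp_pos (-l * (pair U y : ℝ))).le
            linarith
          · rw [abs_of_nonpos h] at h2
            have h3 : Real.exp (l * T) ≤ Real.exp (-l * (pair U y : ℝ)) := by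
              refine Real.exp_le_exp.2 ?_
              have := mul_le_mul_of_nonneg_left h2.le hl
              linarith
            have h4 := (Real.exp_pos (l * (pair U y : ℝ))).le
            linarith
      _ ≤ ∑ y ∈ box d H,
            (Real.exp (l * (pair U y : ℝ)) + Real.exp (-l * (pair U y : ℝ))) :=
          Finset.sum_le_sum_of_subset_of_nonneg (Finset.filter_subset _ _) fun y _ _ =>
            add_nonneg (Real.exp_pos _).le (Real.exp_pos _).le
      _ = ∑ y ∈ box d H, Real.exp (l * (pair U y : ℝ)) +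
            ∑ y ∈ box d H, Real.exp (-l * (pair U y : ℝ)) := Finset.sum_add_distrib
      _ ≤ ((2 * H + 1) * Real.exp (l ^ 2 * H ^ 2 / 2)) ^ d +
            ((2 * H + 1) * Real.exp (l ^ 2 * H ^ 2 / 2)) ^ d := by
          have h5 := sum_exp_pair_le H U l
          have h6 := sum_exp_pair_le H U (-l)
          rw [neg_sq] at h6
          exact add_le_add h5 h6
      _ = 2 * ((2 * H + 1) * Real.exp (l ^ 2 * H ^ 2 / 2)) ^ d := by ring
  have h2 : ((2 * H + 1) * Real.exp (l ^ 2 * H ^ 2 / 2)) ^ d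
      = (2 * H + 1) ^ d * Real.exp (d * (l ^ 2 * H ^ 2 / 2) - l * T) * Real.exp (l * T) := by
    rw [mul_pow, ← Real.exp_nat_mul, mul_assoc, ← Real.exp_add]
    congr 2
    ring
  rw [h2] at h1
  have h3 := Real.exp_pos (l * T)
  have h4 : (((box d H).filter fun y => T < |(pair U y : ℝ)|).card : ℝ) * Real.exp (l * T)
      ≤ (2 * ((2 * H + 1) ^ d * Real.exp (d * (l ^ 2 * H ^ 2 / 2) - l * T))) *
        Real.exp (l * T) := by
    refine h1.trans (le_of_eq ?_)
    ring
  exact le_of_mul_le_mul_right h4 h3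

/-- Choosing a tuple of sign vectors avoiding every large family at least once. -/
lemma exists_tuple {d J : ℕ} {ι : Type*} (s : Finset ι) (𝒰 : ι → Finset (Finset (Fin d)))
    (h : ∀ k ∈ s, 2 * (𝒰 k).card ≤ 2 ^ d) (hs : s.card < 2 ^ J) :
    ∃ U : Fin J → Finset (Fin d), ∀ k ∈ s, ∃ j, U j ∉ 𝒰 k := by
  classical
  by_contra hcon
  push Not at hcon
  have h1 : (univ : Finset (Fin J → Finset (Fin d))) ⊆
      s.biUnion fun k => Fintype.piFinset fun _ : Fin J => 𝒰 k := by
    intro U _
    obtain ⟨k, hk, hU⟩ := hcon U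
    rw [Finset.mem_biUnion]
    exact ⟨k, hk, by rw [Fintype.mem_piFinset]; exact hU⟩
  have h2 := (Finset.card_le_card h1).trans Finset.card_biUnion_le
  have h3 : (univ : Finset (Fin J → Finset (Fin d))).card = (2 ^ d) ^ J := by
    rw [Finset.card_univ, Fintype.card_fun, Fintype.card_fin, Fintype.card_finset,
      Fintype.card_fin]
  rw [h3] at h2
  have h4 : ∀ k ∈ s, (Fintype.piFinset fun _ : Fin J => 𝒰 k).card * 2 ^ J ≤ (2 ^ d) ^ J := by
    intro k hk
    rw [Fintype.card_piFinset, Finset.prod_const, Finset.card_univ, Fintype.card_fin, ← mul_pow]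
    refine Nat.pow_le_pow_left ?_ J
    have := h k hk
    linarith
  have h5 : (∑ k ∈ s, (Fintype.piFinset fun _ : Fin J => 𝒰 k).card) * 2 ^ J
      ≤ s.card * (2 ^ d) ^ J := by
    rw [Finset.sum_mul]
    calc ∑ k ∈ s, (Fintype.piFinset fun _ : Fin J => 𝒰 k).card * 2 ^ J
        ≤ ∑ _k ∈ s, (2 ^ d) ^ J := Finset.sum_le_sum h4
      _ = s.card * (2 ^ d) ^ J := by simp
  have h6 : 0 < (2 ^ d) ^ J := by positivity
  have h7 : s.card * (2 ^ d) ^ J < 2 ^ J * (2 ^ d) ^ J := Nat.mul_lt_mul_of_pos_right hs h6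
  have h8 : (2 ^ d) ^ J * 2 ^ J ≤
      (∑ k ∈ s, (Fintype.piFinset fun _ : Fin J => 𝒰 k).card) * 2 ^ J :=
    Nat.mul_le_mul_right _ h2
  have h9 : (2 ^ d) ^ J * 2 ^ J < 2 ^ J * (2 ^ d) ^ J := lt_of_le_of_lt (h8.trans h5) h7
  rw [mul_comm] at h9
  exact lt_irrefl _ h9

end Pool.Agent.H842R3.Bogo
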