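import Pool.Agent.H842R3.BogoA

/-!
Digits, Bohr sets, rounding of frequencies, and the pigeonhole lower bound for Bohr sets.
-/

namespace Pool.Agent.H842R3.Bogo

open Finset

/-- The integer with digits `z` in base `M`. -/
def val (M : ℤ) {d : ℕ} (z : Fin d → ℤ) : ℤ := ∑ i, z i * M ^ (i : ℕ)

lemma val_succ (M : ℤ) {d : ℕ} (z : Fin (d + 1) → ℤ) :
    val M z = z 0 + M * val M (fun i : Fin d => z i.succ) := by
  unfold val
  rw [Fin.sum_univ_succ, Finset.mul_sum]
  simp only [Fin.val_zero, pow_zero, mul_one, Fin.val_succ]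
  congr 1
  refine Finset.sum_congr rfl fun i _ => ?_
  ring

lemma val_add (M : ℤ) {d : ℕ} (y z : Fin d → ℤ) : val M (y + z) = val M y + val M z := by
  unfold val
  rw [← Finset.sum_add_distrib]
  refine Finset.sum_congr rfl fun i _ => ?_
  simp only [Pi.add_apply]
  ring

lemma val_neg (M : ℤ) {d : ℕ} (y : Fin d → ℤ) : val M (-y) = - val M y := by
  unfold val
  rw [← Finset.sum_neg_distrib]
  refine Finset.sum_congr rfl fun i _ => ?_
  simp only [Pi.neg_apply]
  ring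

lemma val_sub (M : ℤ) {d : ℕ} (y z : Fin d → ℤ) : val M (y - z) = val M y - val M z := by
  rw [sub_eq_add_neg, val_add, val_neg, sub_eq_add_neg]

lemma val_inj (M L : ℤ) (hM : 2 * L < M) (hM0 : 0 < M) : ∀ (d : ℕ) (z z' : Fin d → ℤ),
    (∀ i, |z i| ≤ L) → (∀ i, |z' i| ≤ L) → val M z = val M z' → z = z' := by
  intro d
  induction d with
  | zero => intro z z' _ _ _; funext i; exact i.elim0
  | succ d ih =>
    intro z z' hz hz' h
    rw [val_succ, val_succ] at h
    have h1 : M ∣ z 0 - z' 0 := by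
      refine ⟨val M (fun i : Fin d => z' i.succ) - val M (fun i : Fin d => z i.succ), ?_⟩
      rw [mul_sub]
      linarith
    have h2 : |z 0 - z' 0| < M := by
      have h3 := hz 0
      have h4 := hz' 0
      rw [abs_le] at h3 h4
      rw [abs_lt]
      constructor <;> linarith [h3.1, h3.2, h4.1, h4.2]
    have h3 : z 0 - z' 0 = 0 := Int.eq_zero_of_abs_lt_dvd h1 h2
    have h4 : M * val M (fun i : Fin d => z i.succ) = M * val M (fun i : Fin d => z' i.succ) := by
      linarith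
    have h5 := mul_left_cancel₀ (ne_of_gt hM0) h4
    have h6 := ih _ _ (fun i => hz i.succ) (fun i => hz' i.succ) h5
    funext i
    refine Fin.cases ?_ (fun i => ?_) i
    · linarith
    · exact congrFun h6 i

lemma val_range (M : ℤ) (hM : 0 < M) : ∀ (d : ℕ) (z : Fin d → ℤ),
    (∀ i, 0 ≤ z i ∧ z i < M) → 0 ≤ val M z ∧ val M z < M ^ d := by
  intro d
  induction d with
  | zero => intro z _; simp [val]
  | succ d ih =>
    intro z hz
    rw [val_succ]
    have h1 := ih (fun i : Fin d => z i.succ) fun i => hz i.succ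
    have h2 := hz 0
    constructor
    · have := mul_nonneg hM.le h1.1
      linarith [h2.1]
    · have h3 : val M (fun i : Fin d => z i.succ) + 1 ≤ M ^ d := h1.2
      have h4 := mul_le_mul_of_nonneg_left h3 hM.le
      rw [pow_succ]
      nlinarith [h2.2]

lemma norm_coe_le_abs_sub (x : ℝ) (z : ℤ) : ‖(x : UnitAddCircle)‖ ≤ |x - z| := by
  rw [UnitAddCircle.norm_eq]
  exact round_le x z

lemma norm_coe_le_abs (x : ℝ) : ‖(x : UnitAddCircle)‖ ≤ |x| := by
  have := norm_coe_le_abs_sub x 0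
  simpa using this

/-- Pigeonhole lower bound for the size of a Bohr set. -/
lemma bohr_card {α : Type*} [DecidableEq α] (Θ : Finset α) (r : α → ℝ) (N q : ℕ) (hq : 0 < q) :
    N + 1 ≤ q ^ Θ.card * ((Finset.Icc (-(N : ℤ)) (N : ℤ)).filter fun n : ℤ =>
      ∀ θ ∈ Θ, ‖(((n : ℝ) * r θ : ℝ) : UnitAddCircle)‖ ≤ 1 / (q : ℝ)).card := by
  classical
  set B := ((Finset.Icc (-(N : ℤ)) (N : ℤ)).filter fun n : ℤ =>
      ∀ θ ∈ Θ, ‖(((n : ℝ) * r θ : ℝ) : UnitAddCircle)‖ ≤ 1 / (q : ℝ)) with hB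
  have hq' : (0 : ℝ) < q := by exact_mod_cast hq
  have hlt : ∀ (n : ℕ) (θ : α), ⌊(q : ℝ) * Int.fract ((n : ℝ) * r θ)⌋₊ < q := by
    intro n θ
    rw [Nat.floor_lt (mul_nonneg hq'.le (Int.fract_nonneg _))]
    have := Int.fract_lt_one ((n : ℝ) * r θ)
    nlinarith
  let f : ℕ → (Θ → Fin q) := fun n θ => ⟨⌊(q : ℝ) * Int.fract ((n : ℝ) * r θ)⌋₊, hlt n θ⟩
  have h1 : (Finset.range (N + 1)).card
      = ∑ b ∈ (univ : Finset (Θ → Fin q)), ((Finset.range (N + 1)).filter fun a => f a = b).card :=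
    Finset.card_eq_sum_card_fiberwise (fun _ _ => by simp)
  rw [Finset.card_range] at h1
  have h2 : ∀ b ∈ (univ : Finset (Θ → Fin q)),
      ((Finset.range (N + 1)).filter fun a => f a = b).card ≤ B.card := by
    intro b _
    rcases ((Finset.range (N + 1)).filter fun a => f a = b).eq_empty_or_nonempty with h | h
    · rw [h]; simp
    · obtain ⟨n0, hn0⟩ := h
      refine Finset.card_le_card_of_injOn (fun n : ℕ => (n : ℤ) - (n0 : ℤ)) ?_ ?_
      · intro n hn
        have hn' : n ∈ (Finset.range (N + 1)).filter fun a => f a = b := hn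
        rw [Finset.mem_filter, Finset.mem_range] at hn' hn0
        rw [Finset.mem_coe, hB, Finset.mem_filter, Finset.mem_Icc]
        refine ⟨⟨by show -(N : ℤ) ≤ (n : ℤ) - (n0 : ℤ); omega,
          by show (n : ℤ) - (n0 : ℤ) ≤ (N : ℤ); omega⟩, ?_⟩
        intro θ hθ
        have h3 : f n = f n0 := by rw [hn'.2, hn0.2]
        have h4 := congrArg Fin.val (congrFun h3 ⟨θ, hθ⟩)
        simp only [f] at h4
        have h5 := norm_coe_le_abs_sub ((((n : ℤ) - (n0 : ℤ) : ℤ) : ℝ) * r θ)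
          (⌊(n : ℝ) * r θ⌋ - ⌊(n0 : ℝ) * r θ⌋)
        refine h5.trans ?_
        have h6 : (((n : ℤ) - (n0 : ℤ) : ℤ) : ℝ) * r θ - ((⌊(n : ℝ) * r θ⌋ - ⌊(n0 : ℝ) * r θ⌋ : ℤ) : ℝ)
            = Int.fract ((n : ℝ) * r θ) - Int.fract ((n0 : ℝ) * r θ) := by
          rw [Int.fract, Int.fract]
          push_cast
          ring
        rw [h6]
        have h7 := Nat.floor_le (mul_nonneg hq'.le (Int.fract_nonneg ((n : ℝ) * r θ)))
        have h8 := Nat.lt_floor_add_one ((q : ℝ) * Int.fract ((n : ℝ) * r θ))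
        have h9 := Nat.floor_le (mul_nonneg hq'.le (Int.fract_nonneg ((n0 : ℝ) * r θ)))
        have h10 := Nat.lt_floor_add_one ((q : ℝ) * Int.fract ((n0 : ℝ) * r θ))
        rw [h4] at h7 h8
        have h11 : |((q : ℝ) * Int.fract ((n : ℝ) * r θ)) - ((q : ℝ) * Int.fract ((n0 : ℝ) * r θ))|
            ≤ 1 := by
          rw [abs_le]
          constructor <;> linarith
        rw [← mul_sub, abs_mul, abs_of_pos hq'] at h11
        rw [le_div_iff₀ hq']
        linarith
      · intro a _ b _ h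
        simpa using h
  have h3 := Finset.sum_le_sum h2
  rw [← h1, Finset.sum_const, Finset.card_univ, Fintype.card_fun, Fintype.card_fin,
    Fintype.card_coe, smul_eq_mul] at h3
  exact h3

/-- Rounding a frequency to a multiple of `1 / R`. -/
lemma exists_round (R : ℕ) (hR : 0 < R) (θ : UnitAddCircle) :
    ∃ k : Fin R, ∀ n : ℤ, ‖n • θ‖ ≤
      ‖(((n : ℝ) * ((k : ℕ) / (R : ℝ)) : ℝ) : UnitAddCircle)‖ + |(n : ℝ)| / R := by
  have hR' : (0 : ℝ) < R := by exact_mod_cast hR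
  obtain ⟨x, rfl⟩ := QuotientAddGroup.mk_surjective θ
  have hy : ((Int.fract x : ℝ) : UnitAddCircle) = (x : UnitAddCircle) := by
    rw [Int.fract, AddCircle.coe_sub]
    have h1 : (((⌊x⌋ : ℤ) : ℝ) : UnitAddCircle) = 0 := by
      rw [AddCircle.coe_eq_zero_iff]
      exact ⟨⌊x⌋, by simp⟩
    rw [h1, sub_zero]
  have hlt : ⌊(R : ℝ) * Int.fract x⌋₊ < R := by
    rw [Nat.floor_lt (mul_nonneg hR'.le (Int.fract_nonneg _))]
    have := Int.fract_lt_one x
    nlinarith
  refine ⟨⟨⌊(R : ℝ) * Int.fract x⌋₊, hlt⟩, fun n => ?_⟩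
  have h2 : n • (QuotientAddGroup.mk x : UnitAddCircle)
      = (((n : ℝ) * Int.fract x : ℝ) : UnitAddCircle) := by
    have h3 : (QuotientAddGroup.mk x : UnitAddCircle) = ((Int.fract x : ℝ) : UnitAddCircle) :=
      hy.symm
    rw [h3, ← AddCircle.coe_zsmul, zsmul_eq_mul]
  rw [h2]
  have h4 : (((n : ℝ) * Int.fract x : ℝ) : UnitAddCircle)
      = (((n : ℝ) * ((⌊(R : ℝ) * Int.fract x⌋₊ : ℕ) / (R : ℝ)) : ℝ) : UnitAddCircle)
        + (((n : ℝ) * (Int.fract x - (⌊(R : ℝ) * Int.fract x⌋₊ : ℕ) / (R : ℝ)) : ℝ) :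
            UnitAddCircle) := by
    rw [← AddCircle.coe_add]
    congr 1
    ring
  rw [h4]
  refine (norm_add_le _ _).trans (add_le_add (le_refl _) ?_)
  refine (norm_coe_le_abs _).trans ?_
  rw [abs_mul, div_eq_mul_inv |(n : ℝ)| (R : ℝ)]
  refine mul_le_mul_of_nonneg_left ?_ (abs_nonneg _)
  have h7 := Nat.floor_le (mul_nonneg hR'.le (Int.fract_nonneg x))
  have h8 := Nat.lt_floor_add_one ((R : ℝ) * Int.fract x)
  have h9 : Int.fract x - (⌊(R : ℝ) * Int.fract x⌋₊ : ℕ) / (R : ℝ)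
      = ((R : ℝ) * Int.fract x - (⌊(R : ℝ) * Int.fract x⌋₊ : ℕ)) / R := by
    field_simp
  rw [h9, abs_div, abs_of_pos hR', ← one_div]
  refine div_le_div_of_nonneg_right ?_ hR'.le
  rw [abs_le]
  constructor <;> linarith

end Pool.Agent.H842R3.Bogo
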