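import Mathlib

set_option autoImplicit false

namespace Pool.Agent.H842R3

open Finset

/-- Second moment identity for a pairwise independent family of events on a finite set. -/
theorem second_moment {α ι : Type*} (Ω : Finset α) (T : Finset ι)
    (A : ι → α → Prop) [∀ i, DecidablePred (A i)] [DecidableEq ι] (a : ι → ℝ)
    (h1 : ∀ i ∈ T, ((Ω.filter (A i)).card : ℝ) = a i * Ω.card)
    (h2 : ∀ i ∈ T, ∀ j ∈ T, i ≠ j →
      ((Ω.filter (fun x => A i x ∧ A j x)).card : ℝ) = a i * a j * Ω.card) :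
    ∑ x ∈ Ω, (((T.filter (fun i => A i x)).card : ℝ) - ∑ i ∈ T, a i) ^ 2
      = Ω.card * ∑ i ∈ T, a i * (1 - a i) := by
  have e : ∀ x, (((T.filter (fun i => A i x)).card : ℝ) - ∑ i ∈ T, a i)
      = ∑ i ∈ T, ((if A i x then (1:ℝ) else 0) - a i) := by
    intro x
    rw [Finset.sum_sub_distrib, Finset.card_filter]
    push_cast
    rfl
  have hs1 : ∀ i ∈ T, ∑ x ∈ Ω, (if A i x then (1:ℝ) else 0) = a i * Ω.card := by
    intro i hi
    rw [← h1 i hi, Finset.card_filter]; push_cast; rfl
  have hs2 : ∀ i ∈ T, ∀ j ∈ T, i ≠ j →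
      ∑ x ∈ Ω, ((if A i x then (1:ℝ) else 0) * (if A j x then (1:ℝ) else 0))
        = a i * a j * Ω.card := by
    intro i hi j hj hij
    rw [← h2 i hi j hj hij, Finset.card_filter]; push_cast
    refine Finset.sum_congr rfl ?_
    intro x _
    by_cases ha : A i x <;> by_cases hb : A j x <;> simp [ha, hb]
  have hs3 : ∀ i ∈ T,
      ∑ x ∈ Ω, ((if A i x then (1:ℝ) else 0) * (if A i x then (1:ℝ) else 0))
        = a i * Ω.card := by
    intro i hi
    rw [← hs1 i hi]
    refine Finset.sum_congr rfl ?_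
    intro x _
    by_cases ha : A i x <;> simp [ha]
  calc ∑ x ∈ Ω, (((T.filter (fun i => A i x)).card : ℝ) - ∑ i ∈ T, a i) ^ 2
      = ∑ x ∈ Ω, ∑ i ∈ T, ∑ j ∈ T, ((if A i x then (1:ℝ) else 0) - a i) *
          ((if A j x then (1:ℝ) else 0) - a j) := by
        refine Finset.sum_congr rfl ?_
        intro x _
        rw [e x, sq, Finset.sum_mul_sum]
    _ = ∑ i ∈ T, ∑ j ∈ T, ∑ x ∈ Ω, ((if A i x then (1:ℝ) else 0) - a i) *
          ((if A j x then (1:ℝ) else 0) - a j) := by
        rw [Finset.sum_comm]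
        refine Finset.sum_congr rfl ?_
        intro i _
        rw [Finset.sum_comm]
    _ = ∑ i ∈ T, ∑ j ∈ T, (if i = j then Ω.card * (a i * (1 - a i)) else 0) := by
        refine Finset.sum_congr rfl ?_
        intro i hi
        refine Finset.sum_congr rfl ?_
        intro j hj
        have expand : ∑ x ∈ Ω, ((if A i x then (1:ℝ) else 0) - a i) *
          ((if A j x then (1:ℝ) else 0) - a j)
          = (∑ x ∈ Ω, ((if A i x then (1:ℝ) else 0) * (if A j x then (1:ℝ) else 0)))
            - a j * (∑ x ∈ Ω, (if A i x then (1:ℝ) else 0))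
            - a i * (∑ x ∈ Ω, (if A j x then (1:ℝ) else 0)) + a i * a j * Ω.card := by
          rw [Finset.mul_sum, Finset.mul_sum, ← Finset.sum_sub_distrib, ← Finset.sum_sub_distrib]
          have : a i * a j * (Ω.card : ℝ) = ∑ x ∈ Ω, a i * a j := by
            rw [Finset.sum_const, nsmul_eq_mul]; ring
          rw [this, ← Finset.sum_add_distrib]
          refine Finset.sum_congr rfl ?_
          intro x _
          ring
        rw [expand]
        by_cases hij : i = j
        · subst hij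
          rw [hs3 i hi, hs1 i hi]; simp; ring
        · rw [hs2 i hi j hj hij, hs1 i hi, hs1 j hj]; simp [hij]; ring
    _ = Ω.card * ∑ i ∈ T, a i * (1 - a i) := by
        rw [Finset.mul_sum]
        refine Finset.sum_congr rfl ?_
        intro i hi
        rw [Finset.sum_ite_eq]
        simp [hi]

/-- Chebyshev: few points where the count deviates from its mean by at least `t`. -/
theorem cheb {α ι : Type*} (Ω : Finset α) (T : Finset ι)
    (A : ι → α → Prop) [∀ i, DecidablePred (A i)] [DecidableEq ι] (a : ι → ℝ)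
    (h1 : ∀ i ∈ T, ((Ω.filter (A i)).card : ℝ) = a i * Ω.card)
    (h2 : ∀ i ∈ T, ∀ j ∈ T, i ≠ j →
      ((Ω.filter (fun x => A i x ∧ A j x)).card : ℝ) = a i * a j * Ω.card)
    (B : α → Prop) [DecidablePred B] (t : ℝ)
    (hB : ∀ x ∈ Ω, B x → t ^ 2 ≤ (((T.filter (fun i => A i x)).card : ℝ) - ∑ i ∈ T, a i) ^ 2) :
    ((Ω.filter B).card : ℝ) * t ^ 2 ≤ Ω.card * ∑ i ∈ T, a i * (1 - a i) := by
  rw [← second_moment Ω T A a h1 h2]
  calc ((Ω.filter B).card : ℝ) * t ^ 2 = ∑ x ∈ Ω.filter B, t ^ 2 := by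
        rw [Finset.sum_const, nsmul_eq_mul]
    _ ≤ ∑ x ∈ Ω.filter B, (((T.filter (fun i => A i x)).card : ℝ) - ∑ i ∈ T, a i) ^ 2 := by
        refine Finset.sum_le_sum ?_
        intro x hx
        rw [Finset.mem_filter] at hx
        exact hB x hx.1 hx.2
    _ ≤ _ := by
        refine Finset.sum_le_sum_of_subset_of_nonneg (Finset.filter_subset _ _) ?_
        intro x _ _
        positivity

end Pool.Agent.H842R3
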