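import Mathlib

set_option autoImplicit false

namespace Pool.Agent.H842R3

open Finset Polynomial

variable {K : Type*} [Field K] [Fintype K] [DecidableEq K]

/-- The finite set of polynomials of degree `< n`. -/
noncomputable def S (K : Type*) [Field K] [Fintype K] (n : ℕ) : Finset K[X] :=
  (Finset.univ : Finset (Fin n → K)).map
    ⟨fun v => (((degreeLTEquiv K n).symm v : degreeLT K n) : K[X]),
      fun _ _ h => (degreeLTEquiv K n).symm.injective (Subtype.ext h)⟩

omit [DecidableEq K] in
theorem mem_S {n : ℕ} {f : K[X]} : f ∈ S K n ↔ f.degree < n := by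
  classical
  unfold S
  rw [Finset.mem_map]
  constructor
  · rintro ⟨v, _, rfl⟩
    exact mem_degreeLT.1 ((degreeLTEquiv K n).symm v).2
  · intro h
    refine ⟨degreeLTEquiv K n ⟨f, mem_degreeLT.2 h⟩, Finset.mem_univ _, ?_⟩
    change (((degreeLTEquiv K n).symm (degreeLTEquiv K n ⟨f, mem_degreeLT.2 h⟩) :
      degreeLT K n) : K[X]) = f
    rw [LinearEquiv.symm_apply_apply]

omit [DecidableEq K] in
theorem card_S (n : ℕ) : (S K n).card = Fintype.card K ^ n := by
  classical
  unfold S
  rw [Finset.card_map, Finset.card_univ, Fintype.card_fun, Fintype.card_fin]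

open Classical in
omit [DecidableEq K] in
/-- Number of multiples of `P` of degree `< n`. -/
theorem card_dvd {P : K[X]} (hP : P ≠ 0) {n : ℕ} (hn : P.natDegree ≤ n) :
    ((S K n).filter (fun f => P ∣ f)).card = Fintype.card K ^ (n - P.natDegree) := by
  rw [← card_S (K := K)]
  symm
  refine Finset.card_bij (fun g _ => P * g) ?_ ?_ ?_
  · intro g hg
    rw [Finset.mem_filter, mem_S]
    rw [mem_S] at hg
    refine ⟨?_, dvd_mul_right _ _⟩
    by_cases h0 : g = 0
    · subst h0; simp
    rw [Polynomial.degree_mul, Polynomial.degree_eq_natDegree hP, Polynomial.degree_eq_natDegree h0]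
    rw [Polynomial.degree_eq_natDegree h0] at hg
    have hg' : g.natDegree < n - P.natDegree := by exact_mod_cast hg
    have : P.natDegree + g.natDegree < n := by omega
    exact_mod_cast this
  · intro g _ g' _ h
    exact mul_left_cancel₀ hP h
  · intro f hf
    rw [Finset.mem_filter, mem_S] at hf
    obtain ⟨hf1, g, rfl⟩ := hf
    refine ⟨g, ?_, rfl⟩
    rw [mem_S]
    by_cases h0 : g = 0
    · subst h0
      simp
    rw [Polynomial.degree_mul, Polynomial.degree_eq_natDegree hP,
      Polynomial.degree_eq_natDegree h0] at hf1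
    rw [Polynomial.degree_eq_natDegree h0]
    have h1 : P.natDegree + g.natDegree < n := by exact_mod_cast hf1
    have : g.natDegree < n - P.natDegree := by omega
    exact_mod_cast this

end Pool.Agent.H842R3
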