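import Mathlib
import Pool.Agent.H842R3.Cheb
import Pool.Agent.H842R3.Polys

set_option autoImplicit false

namespace Pool.Agent.H842R3

open Finset Polynomial

variable {K : Type*} [Field K] [Fintype K]

/-- The reciprocal norm of a polynomial. -/
noncomputable def w (P : K[X]) : ℝ := ((Fintype.card K : ℝ) ^ P.natDegree)⁻¹

theorem one_lt_card_real : (1:ℝ) < Fintype.card K := by
  exact_mod_cast Fintype.one_lt_card (α := K)

theorem w_pos (P : K[X]) : 0 < w P := by
  unfold w
  have := one_lt_card_real (K := K)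
  positivity

theorem w_le_half {P : K[X]} (h : 1 ≤ P.natDegree) : w P ≤ 1 / 2 := by
  unfold w
  have h2 : (2:ℝ) ≤ Fintype.card K := by
    exact_mod_cast Fintype.one_lt_card (α := K)
  have : (2:ℝ) ≤ (Fintype.card K : ℝ) ^ P.natDegree := by
    calc (2:ℝ) ≤ Fintype.card K := h2
      _ = (Fintype.card K : ℝ) ^ 1 := by ring
      _ ≤ _ := pow_le_pow_right₀ (by linarith) h
  rw [inv_le_comm₀ (by linarith) (by norm_num)]
  simpa using this

open Classical in
theorem card_dvd_real {P : K[X]} (hP : P ≠ 0) {n : ℕ} (hn : P.natDegree ≤ n) :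
    (((S K n).filter (fun f => P ∣ f)).card : ℝ) = w P * (S K n).card := by
  have h0 : (0:ℝ) < Fintype.card K := by
    have := one_lt_card_real (K := K)
    linarith
  rw [card_dvd hP hn, card_S]
  push_cast
  unfold w
  rw [eq_inv_mul_iff_mul_eq₀ (by positivity), ← pow_add]
  congr 1
  omega

open Classical in
theorem card_not_dvd_real {P : K[X]} (hP : P ≠ 0) {n : ℕ} (hn : P.natDegree ≤ n) :
    (((S K n).filter (fun f => ¬ P ∣ f)).card : ℝ) = (1 - w P) * (S K n).card := by
  have h := Finset.card_filter_add_card_filter_not (s := S K n) (fun f => P ∣ f)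
  have h' : (((S K n).filter (fun f => P ∣ f)).card : ℝ)
    + (((S K n).filter (fun f => ¬ P ∣ f)).card : ℝ) = (S K n).card := by exact_mod_cast h
  rw [card_dvd_real hP hn] at h'
  linarith

open Classical in
theorem card_not_dvd_pair {P P' : K[X]} (hP : P.Monic) (hP' : P'.Monic)
    (hi : Irreducible P) (hi' : Irreducible P') (hne : P ≠ P') {n : ℕ}
    (hn : P.natDegree + P'.natDegree ≤ n) :
    (((S K n).filter (fun f => ¬ P ∣ f ∧ ¬ P' ∣ f)).card : ℝ)
      = (1 - w P) * (1 - w P') * (S K n).card := by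
  have hcop : IsCoprime P P' := by
    rw [hi.coprime_iff_not_dvd]
    intro hd
    exact hne (Polynomial.eq_of_monic_of_associated hP hP' ((hi.dvd_irreducible_iff_associated hi').1 hd))
  have hmul : ∀ f : K[X], (P ∣ f ∧ P' ∣ f) ↔ P * P' ∣ f := by
    intro f
    constructor
    · rintro ⟨h1, h2⟩
      exact hcop.mul_dvd h1 h2
    · intro h
      exact ⟨dvd_trans (dvd_mul_right _ _) h, dvd_trans (dvd_mul_left _ _) h⟩
  have hw : w (P * P') = w P * w P' := by
    unfold w
    rw [Polynomial.natDegree_mul hP.ne_zero hP'.ne_zero, pow_add, mul_inv]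
  have hdeg : (P * P').natDegree ≤ n := by
    rw [Polynomial.natDegree_mul hP.ne_zero hP'.ne_zero]; exact hn
  have a1 := card_not_dvd_real hP.ne_zero (n := n) (by omega)
  have a2 := card_dvd_real hP'.ne_zero (n := n) (by omega)
  have a3 := card_dvd_real (mul_ne_zero hP.ne_zero hP'.ne_zero) (n := n) hdeg
  -- P' ∣ f splits as P∣f or not
  have s1 := Finset.card_filter_add_card_filter_not
    (s := (S K n).filter (fun f => ¬ P ∣ f)) (fun f => P' ∣ f)
  have s2 := Finset.card_filter_add_card_filter_not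
    (s := (S K n).filter (fun f => P' ∣ f)) (fun f => P ∣ f)
  rw [Finset.filter_filter, Finset.filter_filter] at s1 s2
  have e1 : ((S K n).filter (fun f => P' ∣ f ∧ P ∣ f)) = ((S K n).filter (fun f => P * P' ∣ f)) := by
    refine Finset.filter_congr ?_
    intro f _
    rw [← hmul f, and_comm]
  have e2 : ((S K n).filter (fun f => P' ∣ f ∧ ¬ P ∣ f))
      = ((S K n).filter (fun f => ¬ P ∣ f ∧ P' ∣ f)) := by
    refine Finset.filter_congr ?_
    intro f _
    rw [and_comm]
  rw [e1, e2] at s2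
  have s1' : ((((S K n).filter (fun f => ¬ P ∣ f ∧ P' ∣ f)).card : ℝ)
    + (((S K n).filter (fun f => ¬ P ∣ f ∧ ¬ P' ∣ f)).card : ℝ))
    = (((S K n).filter (fun f => ¬ P ∣ f)).card : ℝ) := by exact_mod_cast s1
  have s2' : ((((S K n).filter (fun f => P * P' ∣ f)).card : ℝ)
    + (((S K n).filter (fun f => ¬ P ∣ f ∧ P' ∣ f)).card : ℝ))
    = (((S K n).filter (fun f => P' ∣ f)).card : ℝ) := by exact_mod_cast s2
  rw [a1] at s1'
  rw [a2, a3, hw] at s2'
  linarith

open Classical in
/-- Size of the multiplication table of polynomials of degree `< k`. -/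
noncomputable def NT (K : Type*) [Field K] [Fintype K] (k : ℕ) : ℕ :=
  (((S K k) ×ˢ (S K k)).image (fun x => x.1 * x.2)).card

open Classical in
/-- The multiplication table bound over a finite field: few polynomials of degree `< 2k - 1` are
products of two polynomials of degree `< k`. -/
theorem mul_table (T : Finset K[X]) (hT : ∀ P ∈ T, P.Monic ∧ Irreducible P)
    (hpos : 0 < ∑ P ∈ T, w P) (k : ℕ) (hk : ∀ P ∈ T, ∀ P' ∈ T, P.natDegree + P'.natDegree ≤ k)
    (hk1 : 1 ≤ k) :
    (NT K k : ℝ)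
      ≤ (Fintype.card K : ℝ) ^ (2 * k - 1) * ((16 + 32 * Fintype.card K) / ∑ P ∈ T, w P) := by
  unfold NT
  set q : ℝ := (Fintype.card K : ℝ) with hq
  have hq1 : 1 < q := one_lt_card_real
  set L : ℝ := ∑ P ∈ T, w P with hL
  have hdeg1 : ∀ P ∈ T, 1 ≤ P.natDegree := fun P hP => (hT P hP).2.natDegree_pos
  set M1 : ℝ := ∑ P ∈ T, (1 - w P) with hM1
  set M2 : ℝ := ∑ P ∈ T, (1 - w P) * (1 - w P) with hM2
  set δ : ℝ := (M1 - M2) / 2 with hδ
  set τ : ℝ := (M1 + M2) / 2 with hτ
  have hδL : L / 4 ≤ δ := by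
    have : L / 2 ≤ M1 - M2 := by
      rw [hM1, hM2, ← Finset.sum_sub_distrib, hL, Finset.sum_div]
      refine Finset.sum_le_sum ?_
      intro P hP
      have h1 := w_le_half (hdeg1 P hP)
      have h2 := w_pos P
      nlinarith
    rw [hδ]; linarith
  have hδpos : 0 < δ := by linarith
  -- first part
  have c1 : (((S K (2 * k - 1)).filter
      (fun h => ((T.filter (fun P => ¬ P ∣ h)).card : ℝ) ≤ τ)).card : ℝ) * δ ^ 2
      ≤ (S K (2 * k - 1)).card * ∑ P ∈ T, (1 - w P) * (1 - (1 - w P)) := by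
    refine cheb (S K (2 * k - 1)) T (fun P h => ¬ P ∣ h) (fun P => 1 - w P) ?_ ?_
      (fun h => ((T.filter (fun P => ¬ P ∣ h)).card : ℝ) ≤ τ) δ ?_
    · intro P hP
      exact card_not_dvd_real (hT P hP).1.ne_zero (by have := hk P hP P hP; omega)
    · intro P hP P' hP' hne
      exact card_not_dvd_pair (hT P hP).1 (hT P' hP').1 (hT P hP).2 (hT P' hP').2 hne
        (by have := hk P hP P' hP'; omega)
    · intro h _ hh
      have : δ ≤ M1 - ((T.filter (fun P => ¬ P ∣ h)).card : ℝ) := by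
        rw [hδ]; rw [hτ] at hh; linarith
      nlinarith
  have c2 : ((((S K k) ×ˢ (S K k)).filter
      (fun x => τ < ((T.filter (fun P => ¬ P ∣ x.1 ∧ ¬ P ∣ x.2)).card : ℝ))).card : ℝ) * δ ^ 2
      ≤ ((S K k) ×ˢ (S K k)).card * ∑ P ∈ T, ((1 - w P) * (1 - w P)) *
          (1 - ((1 - w P) * (1 - w P))) := by
    refine cheb ((S K k) ×ˢ (S K k)) T (fun P x => ¬ P ∣ x.1 ∧ ¬ P ∣ x.2)
      (fun P => (1 - w P) * (1 - w P)) ?_ ?_
      (fun x => τ < ((T.filter (fun P => ¬ P ∣ x.1 ∧ ¬ P ∣ x.2)).card : ℝ)) δ ?_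
    · intro P hP
      have e : ((S K k) ×ˢ (S K k)).filter (fun x => ¬ P ∣ x.1 ∧ ¬ P ∣ x.2)
          = ((S K k).filter (fun f => ¬ P ∣ f)) ×ˢ ((S K k).filter (fun f => ¬ P ∣ f)) := by
        ext x
        simp only [Finset.mem_filter, Finset.mem_product]
        tauto
      rw [e, Finset.card_product, Finset.card_product]
      push_cast
      rw [card_not_dvd_real (hT P hP).1.ne_zero (by have := hk P hP P hP; omega)]
      ring
    · intro P hP P' hP' hne
      have e : ((S K k) ×ˢ (S K k)).filter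
          (fun x => (¬ P ∣ x.1 ∧ ¬ P ∣ x.2) ∧ (¬ P' ∣ x.1 ∧ ¬ P' ∣ x.2))
          = ((S K k).filter (fun f => ¬ P ∣ f ∧ ¬ P' ∣ f)) ×ˢ
            ((S K k).filter (fun f => ¬ P ∣ f ∧ ¬ P' ∣ f)) := by
        ext x
        simp only [Finset.mem_filter, Finset.mem_product]
        tauto
      rw [e, Finset.card_product, Finset.card_product]
      push_cast
      rw [card_not_dvd_pair (hT P hP).1 (hT P' hP').1 (hT P hP).2 (hT P' hP').2 hne
        (hk P hP P' hP')]
      ring
    · intro x _ hx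
      have : δ ≤ ((T.filter (fun P => ¬ P ∣ x.1 ∧ ¬ P ∣ x.2)).card : ℝ) - M2 := by
        rw [hδ]; rw [hτ] at hx; linarith
      nlinarith
  have v1 : ∑ P ∈ T, (1 - w P) * (1 - (1 - w P)) ≤ L := by
    rw [hL]
    refine Finset.sum_le_sum ?_
    intro P hP
    have h1 := w_le_half (hdeg1 P hP)
    have h2 := w_pos P
    nlinarith
  have v2 : ∑ P ∈ T, ((1 - w P) * (1 - w P)) * (1 - ((1 - w P) * (1 - w P))) ≤ 2 * L := by
    rw [hL, Finset.mul_sum]
    refine Finset.sum_le_sum ?_
    intro P hP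
    have h1 := w_le_half (hdeg1 P hP)
    have h2 := w_pos P
    have h3 : 0 ≤ 1 - (1 - w P) * (1 - w P) := by nlinarith
    have h4 : (1 - w P) * (1 - w P) ≤ 1 := by nlinarith
    have h5 : 1 - (1 - w P) * (1 - w P) ≤ 2 * w P := by nlinarith
    calc ((1 - w P) * (1 - w P)) * (1 - ((1 - w P) * (1 - w P)))
        ≤ 1 * (1 - ((1 - w P) * (1 - w P))) := mul_le_mul_of_nonneg_right h4 h3
      _ ≤ 2 * w P := by linarith
  -- inclusion
  have hsub : ((S K k) ×ˢ (S K k)).image (fun x => x.1 * x.2) ⊆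
      ((S K (2 * k - 1)).filter (fun h => ((T.filter (fun P => ¬ P ∣ h)).card : ℝ) ≤ τ)) ∪
      ((((S K k) ×ˢ (S K k)).filter
      (fun x => τ < ((T.filter (fun P => ¬ P ∣ x.1 ∧ ¬ P ∣ x.2)).card : ℝ))).image
        (fun x => x.1 * x.2)) := by
    intro h hh
    rw [Finset.mem_image] at hh
    obtain ⟨⟨f, g⟩, hfg, rfl⟩ := hh
    rw [Finset.mem_union]
    by_cases hb : τ < ((T.filter (fun P => ¬ P ∣ f ∧ ¬ P ∣ g)).card : ℝ)
    · right
      rw [Finset.mem_image]
      exact ⟨(f, g), Finset.mem_filter.2 ⟨hfg, hb⟩, rfl⟩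
    · left
      rw [Finset.mem_filter]
      constructor
      · rw [Finset.mem_product, mem_S, mem_S] at hfg
        obtain ⟨hf, hg⟩ := hfg
        simp only at hf hg
        rw [mem_S]
        show (f * g).degree < _
        by_cases hf0 : f = 0
        · subst hf0; simp
        by_cases hg0 : g = 0
        · subst hg0; simp
        rw [Polynomial.degree_eq_natDegree hf0] at hf
        rw [Polynomial.degree_eq_natDegree hg0] at hg
        rw [Polynomial.degree_mul, Polynomial.degree_eq_natDegree hf0,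
          Polynomial.degree_eq_natDegree hg0]
        have hf' : f.natDegree < k := by exact_mod_cast hf
        have hg' : g.natDegree < k := by exact_mod_cast hg
        have : f.natDegree + g.natDegree < 2 * k - 1 := by omega
        exact_mod_cast this
      · rw [not_lt] at hb
        have : (T.filter (fun P => ¬ P ∣ f * g)) = (T.filter (fun P => ¬ P ∣ f ∧ ¬ P ∣ g)) := by
          refine Finset.filter_congr ?_
          intro P hP
          have hpr : Prime P := (hT P hP).2.prime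
          rw [hpr.dvd_mul]
          tauto
        show ((T.filter (fun P => ¬ P ∣ f * g)).card : ℝ) ≤ τ
        rw [this]
        exact hb
  have hcard := Finset.card_le_card hsub
  have hcard2 := hcard.trans (Finset.card_union_le _ _)
  have hcard3 := hcard2.trans (Nat.add_le_add_left (Finset.card_image_le) _)
  have hreal : ((((S K k) ×ˢ (S K k)).image (fun x => x.1 * x.2)).card : ℝ) ≤
     (((S K (2 * k - 1)).filter (fun h => ((T.filter (fun P => ¬ P ∣ h)).card : ℝ) ≤ τ)).card : ℝ)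
     + ((((S K k) ×ˢ (S K k)).filter
      (fun x => τ < ((T.filter (fun P => ¬ P ∣ x.1 ∧ ¬ P ∣ x.2)).card : ℝ))).card : ℝ) := by
    exact_mod_cast hcard3
  set a : ℝ := (((S K (2 * k - 1)).filter
    (fun h => ((T.filter (fun P => ¬ P ∣ h)).card : ℝ) ≤ τ)).card : ℝ) with ha
  set b : ℝ := ((((S K k) ×ˢ (S K k)).filter
      (fun x => τ < ((T.filter (fun P => ¬ P ∣ x.1 ∧ ¬ P ∣ x.2)).card : ℝ))).card : ℝ) with hb
  have hcS1 : ((S K (2 * k - 1)).card : ℝ) = q ^ (2 * k - 1) := by
    rw [card_S]; push_cast; rfl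
  have hcS2 : (((S K k) ×ˢ (S K k)).card : ℝ) = q * q ^ (2 * k - 1) := by
    rw [Finset.card_product, card_S, ← pow_succ', ← pow_add]
    push_cast
    congr 1
    omega
  rw [hcS1] at c1
  rw [hcS2] at c2
  set Z : ℝ := q ^ (2 * k - 1) with hZ
  have hZpos : 0 < Z := by positivity
  have a1 : a * δ ^ 2 ≤ Z * L := c1.trans (mul_le_mul_of_nonneg_left v1 hZpos.le)
  have a2 : b * δ ^ 2 ≤ q * Z * (2 * L) := by
    refine c2.trans (mul_le_mul_of_nonneg_left v2 ?_)
    positivity
  have ha0 : 0 ≤ a := by positivity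
  have hb0 : 0 ≤ b := by positivity
  have hδ2 : L ^ 2 / 16 ≤ δ ^ 2 := by nlinarith
  have key : (a + b) * (L ^ 2 / 16) ≤ Z * L + q * Z * (2 * L) := by
    calc (a + b) * (L ^ 2 / 16) ≤ (a + b) * δ ^ 2 := mul_le_mul_of_nonneg_left hδ2 (by positivity)
      _ = a * δ ^ 2 + b * δ ^ 2 := by ring
      _ ≤ _ := add_le_add a1 a2
  have key2 : (a + b) * L ≤ Z * (16 + 32 * q) := by
    have : L * ((a + b) * L) ≤ L * (Z * (16 + 32 * q)) := by nlinarith
    exact le_of_mul_le_mul_left this hpos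
  calc ((((S K k) ×ˢ (S K k)).image (fun x => x.1 * x.2)).card : ℝ) ≤ a + b := hreal
    _ ≤ Z * ((16 + 32 * q) / L) := by
        rw [← mul_div_assoc, le_div_iff₀ hpos]
        exact key2

end Pool.Agent.H842R3
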