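import Mathlib
import Pool.Agent.H842R3.MulTable

set_option autoImplicit false

namespace Pool.Agent.H842R3

open Finset Polynomial

variable (p : ℕ) [hp : Fact p.Prime]

theorem exists_irred_aux (r : ℕ) (hr : r.Prime) (F : Type) [Field F] [Fintype F]
    [Algebra (ZMod p) F] (hcard : Fintype.card F = p ^ r)
    (hfin : Module.finrank (ZMod p) F = r) :
    ∃ T : Finset (ZMod p)[X], (∀ P ∈ T, P.Monic ∧ Irreducible P ∧ P.natDegree = r) ∧
      p ^ r ≤ p + r * T.card := by
  classical
  have : Fintype (ZMod p) := ZMod.fintype p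
  let R : Finset F := (Finset.univ : Finset (ZMod p)).image (algebraMap (ZMod p) F)
  have hR : R.card ≤ p := by
    refine Finset.card_image_le.trans ?_
    rw [Finset.card_univ, ZMod.card]
  let D : Finset F := Finset.univ \ R
  have hD : p ^ r ≤ p + D.card := by
    have h1 : D.card + R.card = Fintype.card F := by
      rw [Finset.card_sdiff_add_card_eq_card (Finset.subset_univ _), Finset.card_univ]
    rw [hcard] at h1
    omega
  have hdeg : ∀ x ∈ D, (minpoly (ZMod p) x).natDegree = r := by
    intro x hx
    have hint : IsIntegral (ZMod p) x := IsIntegral.of_finite _ x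
    have h1 : (minpoly (ZMod p) x).natDegree ∣ Module.finrank (ZMod p) F :=
      minpoly.degree_dvd hint
    rw [hfin] at h1
    rcases (Nat.dvd_prime hr).1 h1 with h | h
    · exfalso
      rw [minpoly.natDegree_eq_one_iff] at h
      obtain ⟨y, hy⟩ := h
      have : x ∈ R := Finset.mem_image.2 ⟨y, Finset.mem_univ _, hy⟩
      exact (Finset.mem_sdiff.1 hx).2 this
    · exact h
  refine ⟨D.image (minpoly (ZMod p)), ?_, ?_⟩
  · intro P hP
    rw [Finset.mem_image] at hP
    obtain ⟨x, hx, rfl⟩ := hP
    have hint : IsIntegral (ZMod p) x := IsIntegral.of_finite _ x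
    exact ⟨minpoly.monic hint, minpoly.irreducible hint, hdeg x hx⟩
  · have hle : D.card ≤ r * (D.image (minpoly (ZMod p))).card := by
      refine Finset.card_le_mul_card_image D r ?_
      intro P hP
      rw [Finset.mem_image] at hP
      obtain ⟨x, hx, rfl⟩ := hP
      have hint : IsIntegral (ZMod p) x := IsIntegral.of_finite _ x
      have hsub : D.filter (fun y => minpoly (ZMod p) y = minpoly (ZMod p) x) ⊆
          ((minpoly (ZMod p) x).aroots F).toFinset := by
        intro y hy
        rw [Finset.mem_filter] at hy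
        rw [Multiset.mem_toFinset, Polynomial.mem_aroots]
        refine ⟨minpoly.ne_zero hint, ?_⟩
        rw [← hy.2]
        exact minpoly.aeval _ _
      calc (D.filter (fun y => minpoly (ZMod p) y = minpoly (ZMod p) x)).card
          ≤ ((minpoly (ZMod p) x).aroots F).toFinset.card := Finset.card_le_card hsub
        _ ≤ Multiset.card ((minpoly (ZMod p) x).aroots F) := Multiset.toFinset_card_le _
        _ ≤ (minpoly (ZMod p) x).natDegree := by
            unfold Polynomial.aroots
            refine (Polynomial.card_roots' _).trans ?_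
            exact Polynomial.natDegree_map_le
        _ = r := hdeg x hx
    omega

/-- For every prime `r` there are many monic irreducible polynomials of degree `r`. -/
theorem exists_irred (r : ℕ) (hr : r.Prime) :
    ∃ T : Finset (ZMod p)[X], (∀ P ∈ T, P.Monic ∧ Irreducible P ∧ P.natDegree = r) ∧
      p ^ r ≤ p + r * T.card := by
  have : Fintype (GaloisField p r) := Fintype.ofFinite _
  refine exists_irred_aux p r hr (GaloisField p r) ?_ (GaloisField.finrank p hr.ne_zero)
  rw [← Nat.card_eq_fintype_card]
  exact GaloisField.card p r hr.ne_zero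

/-- The reciprocal norms of monic irreducible polynomials have divergent sum. -/
theorem exists_large (L : ℝ) :
    ∃ T : Finset (ZMod p)[X], (∀ P ∈ T, P.Monic ∧ Irreducible P) ∧ L ≤ ∑ P ∈ T, w P := by
  classical
  -- a finite set of primes with large reciprocal sum
  obtain ⟨A, hA1, hA2⟩ : ∃ A : Finset ℕ, (∀ r ∈ A, r.Prime) ∧ 2 * L ≤ ∑ r ∈ A, (1 / r : ℝ) := by
    by_contra hcon
    push Not at hcon
    refine not_summable_one_div_on_primes ?_
    refine summable_of_sum_le (c := 2 * L) ?_ ?_
    · intro n
      exact Set.indicator_nonneg (fun p _ => by positivity) _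
    · intro u
      have h := hcon (u.filter Nat.Prime) (fun r hr => (Finset.mem_filter.1 hr).2)
      rw [Finset.sum_filter] at h
      refine le_of_eq_of_le ?_ h.le
      refine Finset.sum_congr rfl ?_
      intro r _
      simp [Set.indicator_apply]
  choose! T hT1 hT2 using fun r (hr : r.Prime) => exists_irred p r hr
  refine ⟨A.biUnion T, ?_, ?_⟩
  · intro P hP
    rw [Finset.mem_biUnion] at hP
    obtain ⟨r, hr, hP⟩ := hP
    have := hT1 r (hA1 r hr) P hP
    exact ⟨this.1, this.2.1⟩
  · rw [Finset.sum_biUnion]
    · have hp2 : (2:ℝ) ≤ p := by exact_mod_cast hp.out.two_le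
      have : ∀ r ∈ A, (1 / r : ℝ) / 2 ≤ ∑ P ∈ T r, w P := by
        intro r hr
        have hrp := hA1 r hr
        have hr2 : (2:ℝ) ≤ r := by exact_mod_cast hrp.two_le
        have e : ∑ P ∈ T r, w P = (T r).card * ((p:ℝ) ^ r)⁻¹ := by
          rw [← nsmul_eq_mul, ← Finset.sum_const]
          refine Finset.sum_congr rfl ?_
          intro P hP
          unfold w
          rw [(hT1 r hrp P hP).2.2, ZMod.card]
        rw [e]
        have h2 : ((p:ℝ) ^ r) ≤ p + r * (T r).card := by exact_mod_cast hT2 r hrp
        have h3 : (2:ℝ) * p ≤ (p:ℝ) ^ r := by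
          calc (2:ℝ) * p ≤ p * p := by nlinarith
            _ = (p:ℝ) ^ 2 := by ring
            _ ≤ (p:ℝ) ^ r := pow_le_pow_right₀ (by linarith) hrp.two_le
        have h4 : (0:ℝ) < (p:ℝ) ^ r := by positivity
        rw [← div_eq_mul_inv, div_div, div_le_div_iff₀ (by positivity) h4]
        nlinarith
      calc L ≤ (∑ r ∈ A, (1 / r : ℝ)) / 2 := by linarith
        _ = ∑ r ∈ A, (1 / r : ℝ) / 2 := by rw [Finset.sum_div]
        _ ≤ _ := Finset.sum_le_sum this
    · intro r hr r' hr' hne
      rw [Function.onFun, Finset.disjoint_left]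
      intro P hP hP'
      have h1 := (hT1 r (hA1 r hr) P hP).2.2
      have h2 := (hT1 r' (hA1 r' hr') P hP').2.2
      exact hne (h1.symm.trans h2)

end Pool.Agent.H842R3
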