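import Mathlib
import Pool.Agent.H842R3.Irred

set_option autoImplicit false

namespace Pool.Agent.H842R3

open Finset Polynomial

open Classical in
/-- The key construction: a plane set `E` with `|E| = p^(2k)` over the field with `p^(2k-1)`
elements whose distance set is no larger than the multiplication table of polynomials of degree
`< k`. -/
theorem construction (K : Type) [Field K] [Fintype K] (k : ℕ) (hk : 1 ≤ k)
    (F : Type) [Field F] [Fintype F] [Algebra K F] (hfin : Module.finrank K F = 2 * k - 1)
    (i : F) (hi : i ^ 2 = -1) (h2 : (2 : F) ≠ 0) :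
    ∃ E : Finset (Fin 2 → F), E.card = Fintype.card K ^ k * Fintype.card K ^ k ∧
      ((E ×ˢ E).image (fun x => ∑ j, (x.1 j - x.2 j) ^ 2)).card ≤ NT K k := by
  unfold NT
  have : FiniteDimensional K F := Module.finite_of_finrank_pos (by omega)
  have : Algebra.IsSeparable K F := inferInstance
  obtain ⟨θ, hθ⟩ := Field.exists_primitive_element K F
  rw [Field.primitive_element_iff_minpoly_natDegree_eq, hfin] at hθ
  have hint : IsIntegral K θ := IsIntegral.of_finite _ θ
  have hi0 : i ≠ 0 := by
    intro h
    rw [h] at hi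
    norm_num at hi
  have hinj : Set.InjOn (fun f : K[X] => aeval θ f) (S K k : Set K[X]) := by
    intro f hf g hg hfg
    rw [Finset.mem_coe, mem_S] at hf hg
    have h0 : aeval θ (f - g) = 0 := by
      rw [map_sub]
      exact sub_eq_zero.2 hfg
    have hd : minpoly K θ ∣ f - g := minpoly.dvd _ _ h0
    have hlt : (f - g).degree < (minpoly K θ).degree := by
      refine lt_of_le_of_lt (Polynomial.degree_sub_le f g) ?_
      rw [Polynomial.degree_eq_natDegree (minpoly.ne_zero hint), hθ]
      refine lt_of_lt_of_le (max_lt hf hg) ?_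
      exact_mod_cast (by omega : k ≤ 2 * k - 1)
    exact sub_eq_zero.1 (Polynomial.eq_zero_of_dvd_of_degree_lt hd hlt)
  let U : Finset F := (S K k).image (fun f => aeval θ f)
  have hU : U.card = Fintype.card K ^ k := by
    rw [Finset.card_image_of_injOn hinj, card_S]
  let φ : F × F → (Fin 2 → F) := fun x => ![(x.1 + x.2) / 2, (x.1 - x.2) / (2 * i)]
  have hφ : Function.Injective φ := by
    rintro ⟨a, b⟩ ⟨c, d⟩ h
    have h0 := congrFun h 0
    have h1 := congrFun h 1
    simp only [φ, Matrix.cons_val_zero, Matrix.cons_val_one] at h0 h1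
    have e0 : a + b = c + d := by
      field_simp at h0
      exact h0
    have e1 : a - b = c - d := by
      field_simp at h1
      exact h1
    have ea : (2:F) * a = 2 * c := by linear_combination e0 + e1
    have eb : (2:F) * b = 2 * d := by linear_combination e0 - e1
    have ha := mul_left_cancel₀ h2 ea
    have hb := mul_left_cancel₀ h2 eb
    rw [ha, hb]
  refine ⟨(U ×ˢ U).image φ, ?_, ?_⟩
  · rw [Finset.card_image_of_injective _ hφ, Finset.card_product, hU]
  · refine le_trans (Finset.card_le_card (t := (((S K k) ×ˢ (S K k)).image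
      (fun x => x.1 * x.2)).image (fun f => aeval θ f)) ?_) Finset.card_image_le
    intro y hy
    rw [Finset.mem_image] at hy
    obtain ⟨⟨x, x'⟩, hx, rfl⟩ := hy
    rw [Finset.mem_product, Finset.mem_image, Finset.mem_image] at hx
    obtain ⟨⟨⟨u, v⟩, huv, rfl⟩, ⟨⟨u', v'⟩, huv', rfl⟩⟩ := hx
    rw [Finset.mem_product] at huv huv'
    obtain ⟨f, hf, hfu⟩ := Finset.mem_image.1 huv.1
    obtain ⟨g, hg, hgv⟩ := Finset.mem_image.1 huv.2
    obtain ⟨f', hf', hfu'⟩ := Finset.mem_image.1 huv'.1
    obtain ⟨g', hg', hgv'⟩ := Finset.mem_image.1 huv'.2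
    simp only at hfu hgv hfu' hgv'
    rw [Finset.mem_image]
    refine ⟨(f - f') * (g - g'), Finset.mem_image.2 ⟨(f - f', g - g'), ?_, rfl⟩, ?_⟩
    · rw [mem_S] at hf hg hf' hg'
      rw [Finset.mem_product, mem_S, mem_S]
      exact ⟨lt_of_le_of_lt (Polynomial.degree_sub_le _ _) (max_lt hf hf'),
        lt_of_le_of_lt (Polynomial.degree_sub_le _ _) (max_lt hg hg')⟩
    · rw [map_mul, map_sub, map_sub, hfu, hgv, hfu', hgv']
      rw [Fin.sum_univ_two]
      simp only [φ, Matrix.cons_val_zero, Matrix.cons_val_one]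
      field_simp
      linear_combination (-(u - u' - v + v') ^ 2) * hi

end Pool.Agent.H842R3
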