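import Mathlib
import Pool.Agent.H842R3.ErdosFalconer

set_option autoImplicit false

namespace Pool.Agent.H842R3

open Finset Polynomial

open Classical in
/-- The construction in a general field with `p^(2k-1)` elements. -/
theorem contra (p : ℕ) [hp : Fact p.Prime] (hmod : p % 4 = 1) (C c : ℝ)
    (hc : 0 < c) (hCp : C ≤ p) (T : Finset (ZMod p)[X])
    (hT : ∀ P ∈ T, P.Monic ∧ Irreducible P) (hL : (16 + 32 * p) / c + 1 ≤ ∑ P ∈ T, w P)
    (k : ℕ) (hk1 : 1 ≤ k) (hk : ∀ P ∈ T, ∀ P' ∈ T, P.natDegree + P'.natDegree ≤ k)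
    (F : Type) [Field F] [Fintype F] [Algebra (ZMod p) F] [CharP F p]
    (hcard : Fintype.card F = p ^ (2 * k - 1))
    (hfin : Module.finrank (ZMod p) F = 2 * k - 1) :
    ringChar F ≠ 2 ∧ ∃ E : Finset (Fin 2 → F),
      C * ((Fintype.card F : ℝ) ^ (2 / 2)) ≤ (E.card : ℝ) ∧
      (((E ×ˢ E).image (fun p => ∑ k, (p.1 k - p.2 k) ^ 2)).card : ℝ) < c * Fintype.card F := by
  have hp0 : (0:ℝ) < p := by exact_mod_cast hp.out.pos
  have hL0 : (0:ℝ) < (16 + 32 * p) / c + 1 := by positivity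
  have hpos : 0 < ∑ P ∈ T, w P := lt_of_lt_of_le hL0 hL
  have hmt := mul_table T hT hpos k hk hk1
  have hsq : IsSquare (-1 : ZMod p) := by
    rw [ZMod.exists_sq_eq_neg_one_iff]
    omega
  obtain ⟨j, hj⟩ := hsq
  have hi : (algebraMap (ZMod p) F j) ^ 2 = -1 := by
    rw [sq, ← map_mul, ← hj, map_neg, map_one]
  have hchar : ringChar F = p := ringChar.eq F p |>.symm ▸ rfl
  have hp2 : p ≠ 2 := by
    intro h
    rw [h] at hmod
    norm_num at hmod
  have hne : ringChar F ≠ 2 := by rw [hchar]; exact hp2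
  have h2 : (2 : F) ≠ 0 := Ring.two_ne_zero hne
  obtain ⟨E, hE1, hE2⟩ := construction (ZMod p) k hk1 F hfin _ hi h2
  refine ⟨hne, E, ?_, ?_⟩
  · rw [hE1, hcard, ZMod.card]
    push_cast
    rw [← pow_add]
    have : k + k = (2 * k - 1) + 1 := by omega
    have hq : (0:ℝ) < (p:ℝ) ^ (2 * k - 1) := by positivity
    have h1 : ((p:ℝ) ^ (2 * k - 1)) ^ (2 / 2) = (p:ℝ) ^ (2 * k - 1) := by norm_num
    have h3 : (p:ℝ) ^ (2 * k - 1 + 1) = p * (p:ℝ) ^ (2 * k - 1) := pow_succ' _ _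
    rw [this, h1, h3]
    exact mul_le_mul_of_nonneg_right hCp hq.le
  · have e1 := (Nat.cast_le (α := ℝ)).2 hE2
    refine lt_of_le_of_lt (e1.trans hmt) ?_
    rw [hcard, ZMod.card]
    push_cast
    have hq : (0:ℝ) < (p:ℝ) ^ (2 * k - 1) := by positivity
    rw [mul_comm c]
    refine mul_lt_mul_of_pos_left ?_ hq
    rw [div_lt_iff₀ hpos]
    have e4 : c * ((16 + 32 * p) / c + 1) ≤ c * ∑ P ∈ T, w P :=
      mul_le_mul_of_nonneg_left hL hc.le
    have e5 : c * ((16 + 32 * (p:ℝ)) / c + 1) = 16 + 32 * p + c := by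
      field_simp
    linarith

/-- For all constants there is a finite field of odd characteristic and a large plane set with few
distances. -/
theorem exists_bad (C c : ℝ) (hc : 0 < c) :
    ∃ (F : Type) (_ : Field F) (_ : Fintype F) (_ : DecidableEq F), ringChar F ≠ 2 ∧
      ∃ E : Finset (Fin 2 → F), C * ((Fintype.card F : ℝ) ^ (2 / 2)) ≤ (E.card : ℝ) ∧
      (((E ×ˢ E).image (fun p => ∑ k, (p.1 k - p.2 k) ^ 2)).card : ℝ) < c * Fintype.card F := by
  classical
  obtain ⟨p, hp, hpC, hmod⟩ := Nat.exists_prime_gt_modEq_one (k := 4) ⌈C⌉₊ (by norm_num)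
  have : Fact p.Prime := ⟨hp⟩
  have hCp : C ≤ p := (Nat.le_ceil C).trans (by exact_mod_cast hpC.le)
  have hmod' : p % 4 = 1 := hmod
  obtain ⟨T, hT, hL⟩ := exists_large p ((16 + 32 * p) / c + 1)
  obtain ⟨k, hk1, hk⟩ : ∃ k : ℕ, 1 ≤ k ∧
      ∀ P ∈ T, ∀ P' ∈ T, P.natDegree + P'.natDegree ≤ k := by
    refine ⟨2 * T.sup Polynomial.natDegree + 1, by omega, ?_⟩
    intro P hP P' hP'
    have h1 := Finset.le_sup (f := Polynomial.natDegree) hP
    have h2 := Finset.le_sup (f := Polynomial.natDegree) hP'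
    omega
  have hn0 : 2 * k - 1 ≠ 0 := by omega
  have hF : Fintype (GaloisField p (2 * k - 1)) := Fintype.ofFinite _
  have hcard : Fintype.card (GaloisField p (2 * k - 1)) = p ^ (2 * k - 1) := by
    rw [← Nat.card_eq_fintype_card]
    exact GaloisField.card p _ hn0
  exact ⟨GaloisField p (2 * k - 1), inferInstance, hF, Classical.decEq _,
    contra p hmod' C c hc hCp T hT hL k hk1 hk (GaloisField p (2 * k - 1)) hcard
      (GaloisField.finrank p hn0)⟩

end Pool.Agent.H842R3
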